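import Pool.Agent.Helper80.Stack.Goals

set_option autoImplicit false

/-!
# Packet KEY of MP_d6b153_co: `StmtUpInj` and `StmtKey`
-/

namespace Pool.Agent.Helper42.Stk

open Classical Pool.Agent.Helper80.Stk

noncomputable section

variable {V : Type} {E : V → V → Prop}

lemma up_inj (L : LevDraw V E) (e e' : Ed V E) (h : e.1.1 = e'.1.1)
    (hu : L.up e = L.up e') : e = e' := by
  obtain ⟨⟨a, b⟩, hab⟩ := e
  obtain ⟨⟨a', b'⟩, hab'⟩ := e'
  simp only at h hab hab'
  subst h
  unfold LevDraw.up at hu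
  simp only at hu
  have l1 := L.lev_lt a b hab
  have l2 := L.lev_lt a b' hab'
  have key : b = b' := by
    rcases Nat.lt_or_ge (L.lev a + 1) (L.lev b) with h1 | h1
    · rcases Nat.lt_or_ge (L.lev a + 1) (L.lev b') with h2 | h2
      · exact (L.X_edge a b a b' (L.lev a + 1) hab hab' (by omega) h1 (by omega) h2 hu).2
      · have h3 : L.lev b' = L.lev a + 1 := by omega
        have h4 := L.X_top a b' hab'
        have h5 := L.X_vert a b b' hab (by omega) (by omega)
        rw [h3] at h4 h5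
        exact absurd (hu.trans h4) h5
    · have h3 : L.lev b = L.lev a + 1 := by omega
      have h4 := L.X_top a b hab
      rw [h3] at h4
      rcases Nat.lt_or_ge (L.lev a + 1) (L.lev b') with h2 | h2
      · have h5 := L.X_vert a b' b hab' (by omega) (by omega)
        rw [h3] at h5
        exact absurd (hu.symm.trans h4) h5
      · have h6 : L.lev b' = L.lev a + 1 := by omega
        have h7 := L.X_top a b' hab'
        rw [h6] at h7
        exact L.x_inj b b' (by omega) (by rw [← h4, ← h7, hu])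
  subst key
  rfl

lemma dn_inj (L : LevDraw V E) (e e' : Ed V E) (h : e.1.2 = e'.1.2)
    (hu : L.dn e = L.dn e') : e = e' := by
  obtain ⟨⟨a, b⟩, hab⟩ := e
  obtain ⟨⟨a', b'⟩, hab'⟩ := e'
  simp only at h hab hab'
  subst h
  unfold LevDraw.dn at hu
  simp only at hu
  have l1 := L.lev_lt a b hab
  have l2 := L.lev_lt a' b hab'
  have key : a = a' := by
    rcases Nat.lt_or_ge (L.lev a) (L.lev b - 1) with h1 | h1
    · rcases Nat.lt_or_ge (L.lev a') (L.lev b - 1) with h2 | h2
      · exact (L.X_edge a b a' b (L.lev b - 1) hab hab' h1 (by omega) h2 (by omega) hu).1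
      · have h3 : L.lev a' = L.lev b - 1 := by omega
        have h4 := L.X_bot a' b hab'
        have h5 := L.X_vert a b a' hab (by omega) (by omega)
        rw [h3] at h4 h5
        exact absurd (hu.trans h4) h5
    · have h3 : L.lev a = L.lev b - 1 := by omega
      have h4 := L.X_bot a b hab
      rw [h3] at h4
      rcases Nat.lt_or_ge (L.lev a') (L.lev b - 1) with h2 | h2
      · have h5 := L.X_vert a' b a hab' (by omega) (by omega)
        rw [h3] at h5
        exact absurd (hu.symm.trans h4) h5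
      · have h6 : L.lev a' = L.lev b - 1 := by omega
        have h7 := L.X_bot a' b hab'
        rw [h6] at h7
        exact L.x_inj a a' (by omega) (by rw [← h4, ← h7, hu])
  subst key
  rfl

theorem pf_UpInj : StmtUpInj := by
  intro V E L
  exact ⟨up_inj L, dn_inj L⟩

/-- abscissa of an edge at a level -/
def Y (L : LevDraw V E) (e : Ed V E) (i : ℕ) : ℝ := L.X e.1.1 e.1.2 i

/-- the edge is in slab `i` -/
def Sl (L : LevDraw V E) (i : ℕ) (e : Ed V E) : Prop := L.lev e.1.1 ≤ i ∧ i < L.lev e.1.2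

lemma Y_bot (L : LevDraw V E) (e : Ed V E) : Y L e (L.lev e.1.1) = L.x e.1.1 :=
  L.X_bot _ _ e.2

lemma Y_top (L : LevDraw V E) (e : Ed V E) : Y L e (L.lev e.1.2) = L.x e.1.2 :=
  L.X_top _ _ e.2

lemma lt_e (L : LevDraw V E) (e : Ed V E) : L.lev e.1.1 < L.lev e.1.2 := L.lev_lt _ _ e.2

lemma Y_edge (L : LevDraw V E) (e e' : Ed V E) (i : ℕ) (h1 : L.lev e.1.1 < i)
    (h2 : i < L.lev e.1.2) (h3 : L.lev e'.1.1 < i) (h4 : i < L.lev e'.1.2)
    (h : Y L e i = Y L e' i) : e = e' := by
  obtain ⟨h5, h6⟩ := L.X_edge _ _ _ _ i e.2 e'.2 h1 h2 h3 h4 h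
  exact Subtype.ext (Prod.ext h5 h6)

lemma Y_vert (L : LevDraw V E) (e : Ed V E) (v : V) (i : ℕ) (hv : L.lev v = i)
    (h1 : L.lev e.1.1 < i) (h2 : i < L.lev e.1.2) : Y L e i ≠ L.x v := by
  subst hv
  exact L.X_vert _ _ v e.2 h1 h2

lemma Y_mono (L : LevDraw V E) (e e' : Ed V E) (i : ℕ) (h1 : Sl L i e) (h2 : Sl L i e')
    (h : Y L e i < Y L e' i) : Y L e (i + 1) ≤ Y L e' (i + 1) :=
  L.mono _ _ _ _ i e.2 e'.2 h1.1 h1.2 h2.1 h2.2 h

lemma Y_eq (L : LevDraw V E) (e e' : Ed V E) (i : ℕ) (h1 : Sl L i e) (h2 : Sl L i e')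
    (h : Y L e i = Y L e' i) (h' : Y L e (i + 1) = Y L e' (i + 1)) : e = e' := by
  rcases Nat.lt_or_ge (L.lev e.1.1) i with h3 | h3
  · rcases Nat.lt_or_ge (L.lev e'.1.1) i with h4 | h4
    · exact Y_edge L e e' i h3 h1.2 h4 h2.2 h
    · have h5 : L.lev e'.1.1 = i := le_antisymm h2.1 h4
      have h6 := Y_bot L e'
      rw [h5] at h6
      exact absurd (h.trans h6) (Y_vert L e _ i h5 h3 h1.2)
  · have h5 : L.lev e.1.1 = i := le_antisymm h1.1 h3
    have h6 := Y_bot L e
    rw [h5] at h6
    rcases Nat.lt_or_ge (L.lev e'.1.1) i with h4 | h4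
    · exact absurd (h.symm.trans h6) (Y_vert L e' _ i h5 h4 h2.2)
    · have h7 : L.lev e'.1.1 = i := le_antisymm h2.1 h4
      have h8 := Y_bot L e'
      rw [h7] at h8
      have h9 : e.1.1 = e'.1.1 := L.x_inj _ _ (by omega) (by rw [← h6, ← h8, h])
      apply up_inj L e e' h9
      unfold LevDraw.up
      rw [h5, h7]
      exact h'

/-- the key of an edge in slab `i` -/
def m (L : LevDraw V E) (i : ℕ) (e : Ed V E) : ℝ := Y L e i + Y L e (i + 1)

lemma m_lt (L : LevDraw V E) (i : ℕ) (e e' : Ed V E) (h1 : Sl L i e) (h2 : Sl L i e') :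
    m L i e' < m L i e ↔ (Y L e' i < Y L e i ∨
      (Y L e' i = Y L e i ∧ Y L e' (i + 1) < Y L e (i + 1))) := by
  unfold m
  rcases lt_trichotomy (Y L e' i) (Y L e i) with h | h | h
  · have := Y_mono L e' e i h2 h1 h
    constructor
    · intro _; exact Or.inl h
    · intro _; linarith
  · constructor
    · intro h3; exact Or.inr ⟨h, by linarith⟩
    · rintro (h3 | ⟨_, h3⟩) <;> linarith
  · have := Y_mono L e e' i h1 h2 h
    constructor
    · intro h3; linarith
    · rintro (h3 | ⟨h3, _⟩) <;> linarith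

lemma m_lt' (L : LevDraw V E) (i : ℕ) (e e' : Ed V E) (h1 : Sl L i e) (h2 : Sl L i e') :
    m L i e' < m L i e ↔ (Y L e' (i + 1) < Y L e (i + 1) ∨
      (Y L e' (i + 1) = Y L e (i + 1) ∧ Y L e' i < Y L e i)) := by
  rw [m_lt L i e e' h1 h2]
  constructor
  · rintro (h | ⟨h, h'⟩)
    · have := Y_mono L e' e i h2 h1 h
      rcases this.lt_or_eq with h3 | h3
      · exact Or.inl h3
      · exact Or.inr ⟨h3, h⟩
    · exact Or.inl h'
  · rintro (h | ⟨h, h'⟩)
    · rcases lt_trichotomy (Y L e' i) (Y L e i) with h3 | h3 | h3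
      · exact Or.inl h3
      · exact Or.inr ⟨h3, h⟩
      · have := Y_mono L e e' i h1 h2 h3
        linarith
    · exact Or.inl h'

variable [Fintype V]

/-- the counting function of a slab -/
def Lc (L : LevDraw V E) (c : Ed V E → ZMod 2) (i : ℕ) (e : Ed V E) : ZMod 2 :=
  ∑ e' : Ed V E, if Sl L i e' ∧ m L i e' < m L i e then c e' else 0

lemma even_level (L : LevDraw V E) (c : Ed V E → ZMod 2)
    (hc : ∀ v, (∑ e : Ed V E, ((if e.1.1 = v then c e else 0) +
      (if e.1.2 = v then c e else 0))) = 0) (i : ℕ) (z : ℝ) :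
    (∑ e' : Ed V E, if Sl L i e' ∧ Y L e' (i + 1) < z then c e' else 0) =
      ∑ e' : Ed V E, if Sl L (i + 1) e' ∧ Y L e' (i + 1) < z then c e' else 0 := by
  have h0 : (∑ v : V, if L.lev v = i + 1 ∧ L.x v < z then
      (∑ e : Ed V E, ((if e.1.1 = v then c e else 0) + (if e.1.2 = v then c e else 0)))
      else 0) = 0 := by
    apply Finset.sum_eq_zero
    intro v _
    rw [hc v]
    simp
  have h1 : ∀ v : V, (if L.lev v = i + 1 ∧ L.x v < z then
      (∑ e : Ed V E, ((if e.1.1 = v then c e else 0) + (if e.1.2 = v then c e else 0)))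
      else 0) = ∑ e : Ed V E, ((if e.1.1 = v then
        (if L.lev e.1.1 = i + 1 ∧ L.x e.1.1 < z then c e else 0) else 0) +
        (if e.1.2 = v then
        (if L.lev e.1.2 = i + 1 ∧ L.x e.1.2 < z then c e else 0) else 0)) := by
    intro v
    split_ifs with h
    · apply Finset.sum_congr rfl
      intro e _
      congr 1
      · by_cases h2 : e.1.1 = v
        · rw [if_pos h2, if_pos h2, h2, if_pos h]
        · rw [if_neg h2, if_neg h2]
      · by_cases h2 : e.1.2 = v
        · rw [if_pos h2, if_pos h2, h2, if_pos h]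
        · rw [if_neg h2, if_neg h2]
    · symm
      apply Finset.sum_eq_zero
      intro e _
      have a1 : (if e.1.1 = v then
        (if L.lev e.1.1 = i + 1 ∧ L.x e.1.1 < z then c e else 0) else 0) = 0 := by
        by_cases h2 : e.1.1 = v
        · rw [if_pos h2, h2, if_neg h]
        · rw [if_neg h2]
      have a2 : (if e.1.2 = v then
        (if L.lev e.1.2 = i + 1 ∧ L.x e.1.2 < z then c e else 0) else 0) = 0 := by
        by_cases h2 : e.1.2 = v
        · rw [if_pos h2, h2, if_neg h]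
        · rw [if_neg h2]
      rw [a1, a2, add_zero]
  rw [Finset.sum_congr rfl (fun v _ => h1 v), Finset.sum_comm] at h0
  have h2 : ∀ e : Ed V E, (∑ v : V, ((if e.1.1 = v then
        (if L.lev e.1.1 = i + 1 ∧ L.x e.1.1 < z then c e else 0) else 0) +
        (if e.1.2 = v then
        (if L.lev e.1.2 = i + 1 ∧ L.x e.1.2 < z then c e else 0) else 0))) =
      (if L.lev e.1.1 = i + 1 ∧ L.x e.1.1 < z then c e else 0) +
      (if L.lev e.1.2 = i + 1 ∧ L.x e.1.2 < z then c e else 0) := by
    intro e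
    rw [Finset.sum_add_distrib, Finset.sum_ite_eq, Finset.sum_ite_eq]
    simp
  rw [Finset.sum_congr rfl (fun e _ => h2 e)] at h0
  have h3 : (∑ e' : Ed V E, if Sl L i e' ∧ Y L e' (i + 1) < z then c e' else 0) +
      (∑ e' : Ed V E, if Sl L (i + 1) e' ∧ Y L e' (i + 1) < z then c e' else 0) =
      ∑ e : Ed V E, ((if L.lev e.1.1 = i + 1 ∧ L.x e.1.1 < z then c e else 0) +
      (if L.lev e.1.2 = i + 1 ∧ L.x e.1.2 < z then c e else 0)) := by
    rw [← Finset.sum_add_distrib]
    apply Finset.sum_congr rfl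
    intro e _
    have hlt := lt_e L e
    have hb := Y_bot L e
    have ht := Y_top L e
    rcases lt_trichotomy (L.lev e.1.1) (i + 1) with h4 | h4 | h4
    · rcases lt_trichotomy (L.lev e.1.2) (i + 1) with h5 | h5 | h5
      · rw [if_neg (fun h => by have := h.1.2; omega), if_neg (fun h => by have := h.1.2; omega),
          if_neg (by rintro ⟨h, _⟩; omega), if_neg (by rintro ⟨h, _⟩; omega)]
      · rw [h5] at ht
        rw [if_neg (c := Sl L (i + 1) e ∧ Y L e (i + 1) < z) (fun h => by have := h.1.2; omega),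
          if_neg (c := L.lev e.1.1 = i + 1 ∧ L.x e.1.1 < z) (by rintro ⟨h, _⟩; omega),
          add_zero, zero_add]
        by_cases h6 : L.x e.1.2 < z
        · rw [if_pos ⟨⟨by omega, by omega⟩, by rw [ht]; exact h6⟩, if_pos ⟨h5, h6⟩]
        · rw [if_neg (fun h => h6 (by rw [← ht]; exact h.2)), if_neg (fun h => h6 h.2)]
      · rw [if_neg (c := L.lev e.1.1 = i + 1 ∧ L.x e.1.1 < z) (by rintro ⟨h, _⟩; omega),
          if_neg (c := L.lev e.1.2 = i + 1 ∧ L.x e.1.2 < z) (by rintro ⟨h, _⟩; omega)]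
        by_cases h6 : Y L e (i + 1) < z
        · rw [if_pos ⟨⟨by omega, by omega⟩, h6⟩, if_pos ⟨⟨by omega, by omega⟩, h6⟩, z2, add_zero]
        · rw [if_neg (fun h => h6 h.2), if_neg (fun h => h6 h.2)]
    · rw [h4] at hb
      rw [if_neg (c := Sl L i e ∧ Y L e (i + 1) < z) (fun h => by have := h.1.1; omega),
        if_neg (c := L.lev e.1.2 = i + 1 ∧ L.x e.1.2 < z) (by rintro ⟨h, _⟩; omega),
        add_zero, zero_add]
      by_cases h6 : L.x e.1.1 < z
      · rw [if_pos ⟨⟨by omega, by omega⟩, by rw [hb]; exact h6⟩, if_pos ⟨h4, h6⟩]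
      · rw [if_neg (fun h => h6 (by rw [← hb]; exact h.2)), if_neg (fun h => h6 h.2)]
    · rw [if_neg (fun h => by have := h.1.1; omega), if_neg (fun h => by have := h.1.1; omega),
        if_neg (by rintro ⟨h, _⟩; omega), if_neg (by rintro ⟨h, _⟩; omega)]
  rw [h0] at h3
  exact CharTwo.add_eq_zero.mp h3

lemma Lc_step (L : LevDraw V E) (c : Ed V E → ZMod 2)
    (hc : ∀ v, (∑ e : Ed V E, ((if e.1.1 = v then c e else 0) +
      (if e.1.2 = v then c e else 0))) = 0) (i : ℕ) (e : Ed V E)
    (h1 : L.lev e.1.1 ≤ i) (h2 : i + 1 < L.lev e.1.2) :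
    Lc L c i e = Lc L c (i + 1) e := by
  have key := even_level L c hc i (Y L e (i + 1))
  have s1 : Sl L i e := ⟨h1, by omega⟩
  have s2 : Sl L (i + 1) e := ⟨by omega, h2⟩
  have ne1 : ∀ e' : Ed V E, Sl L i e' → Y L e' (i + 1) = Y L e (i + 1) → e' = e := by
    intro e' he' h
    rcases Nat.lt_or_ge (i + 1) (L.lev e'.1.2) with h3 | h3
    · exact Y_edge L e' e (i + 1) (by have := he'.1; omega) h3 (by omega) h2 h
    · have h4 : L.lev e'.1.2 = i + 1 := by have := he'.2; omega
      have h5 := Y_top L e'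
      rw [h4] at h5
      exact absurd (h.symm.trans h5) (Y_vert L e _ (i + 1) h4 (by omega) h2)
  have ne2 : ∀ e' : Ed V E, Sl L (i + 1) e' → Y L e' (i + 1) = Y L e (i + 1) → e' = e := by
    intro e' he' h
    rcases Nat.lt_or_ge (L.lev e'.1.1) (i + 1) with h3 | h3
    · exact Y_edge L e' e (i + 1) h3 he'.2 (by omega) h2 h
    · have h4 : L.lev e'.1.1 = i + 1 := by have := he'.1; omega
      have h5 := Y_bot L e'
      rw [h4] at h5
      exact absurd (h.symm.trans h5) (Y_vert L e _ (i + 1) h4 (by omega) h2)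
  unfold Lc
  rw [Finset.sum_congr rfl (g := fun e' : Ed V E =>
    if Sl L i e' ∧ Y L e' (i + 1) < Y L e (i + 1) then c e' else 0), key]
  · apply Finset.sum_congr rfl
    intro e' _
    congr 1
    apply propext
    constructor
    · rintro ⟨h3, h4⟩
      exact ⟨h3, (m_lt L (i + 1) e e' s2 h3).mpr (Or.inl h4)⟩
    · rintro ⟨h3, h4⟩
      refine ⟨h3, ?_⟩
      rcases (m_lt L (i + 1) e e' s2 h3).mp h4 with h5 | ⟨h5, h6⟩
      · exact h5
      · have := ne2 e' h3 h5
        subst this
        exact absurd h6 (lt_irrefl _)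
  · intro e' _
    congr 1
    apply propext
    constructor
    · rintro ⟨h3, h4⟩
      refine ⟨h3, ?_⟩
      rcases (m_lt' L i e e' s1 h3).mp h4 with h5 | ⟨h5, h6⟩
      · exact h5
      · have := ne1 e' h3 h5
        subst this
        exact absurd h6 (lt_irrefl _)
    · rintro ⟨h3, h4⟩
      exact ⟨h3, (m_lt' L i e e' s1 h3).mpr (Or.inl h4)⟩

lemma Lc_const (L : LevDraw V E) (c : Ed V E → ZMod 2)
    (hc : ∀ v, (∑ e : Ed V E, ((if e.1.1 = v then c e else 0) +
      (if e.1.2 = v then c e else 0))) = 0) (e : Ed V E) :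
    ∀ k : ℕ, L.lev e.1.1 + k < L.lev e.1.2 →
      Lc L c (L.lev e.1.1) e = Lc L c (L.lev e.1.1 + k) e := by
  intro k
  induction k with
  | zero => intro _; rfl
  | succ k ih =>
    intro h
    rw [ih (by omega)]
    exact Lc_step L c hc _ e (by omega) (by omega)

theorem pf_Key : StmtKey := by
  intro V _ E L c hc
  refine ⟨fun e => Lc L c (L.lev e.1.1) e,
    fun v => ∑ e' : Ed V E, if Sl L (L.lev v) e' ∧ Y L e' (L.lev v) < L.x v then c e' else 0,
    ?_, ?_⟩
  · intro e
    simp only
    have s1 : Sl L (L.lev e.1.1) e := ⟨le_refl _, lt_e L e⟩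
    unfold Lc
    rw [← Finset.sum_add_distrib]
    apply Finset.sum_congr rfl
    intro e' _
    have hY := Y_bot L e
    by_cases h1 : Sl L (L.lev e.1.1) e'
    · have hm := m_lt L (L.lev e.1.1) e e' s1 h1
      rw [hY] at hm
      have hiff : (Y L e' (L.lev e.1.1) = L.x e.1.1 ∧
          Y L e' (L.lev e.1.1 + 1) < Y L e (L.lev e.1.1 + 1)) ↔
          (e'.1.1 = e.1.1 ∧ L.up e' < L.up e) := by
        constructor
        · rintro ⟨h2, h3⟩
          have h4 : L.lev e'.1.1 = L.lev e.1.1 := by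
            by_contra h5
            exact Y_vert L e' _ _ rfl (lt_of_le_of_ne h1.1 h5) h1.2 h2
          have h5 := Y_bot L e'
          rw [h4, h2] at h5
          refine ⟨L.x_inj _ _ h4 h5.symm, ?_⟩
          unfold LevDraw.up
          rw [h4]
          exact h3
        · rintro ⟨h2, h3⟩
          have h5 := Y_bot L e'
          unfold LevDraw.up at h3
          rw [h2] at h5 h3
          refine ⟨h5, ?_⟩
          unfold Y
          rw [h2]
          exact h3
      by_cases h2 : Y L e' (L.lev e.1.1) < L.x e.1.1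
      · rw [if_pos ⟨h1, hm.mpr (Or.inl h2)⟩, if_pos ⟨h1, h2⟩, if_neg, add_zero]
        intro h3
        have := (hiff.mpr h3).1
        linarith
      · by_cases h3 : e'.1.1 = e.1.1 ∧ L.up e' < L.up e
        · rw [if_pos ⟨h1, hm.mpr (Or.inr (hiff.mpr h3))⟩, if_neg (fun h => h2 h.2), if_pos h3,
            zero_add]
        · rw [if_neg, if_neg (fun h => h2 h.2), if_neg h3, zero_add]
          rintro ⟨_, h4⟩
          rcases hm.mp h4 with h5 | h5
          · exact h2 h5
          · exact h3 (hiff.mp h5)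
    · rw [if_neg (fun h => h1 h.1), if_neg (fun h => h1 h.1), if_neg, add_zero]
      rintro ⟨h2, _⟩
      apply h1
      have := lt_e L e'
      rw [← h2]
      exact ⟨le_refl _, this⟩
  · intro e
    simp only
    have hlt := lt_e L e
    have hk := Lc_const L c hc e (L.lev e.1.2 - 1 - L.lev e.1.1) (by omega)
    rw [hk]
    obtain ⟨i, hi⟩ : ∃ i, L.lev e.1.2 = i + 1 := ⟨L.lev e.1.2 - 1, by omega⟩
    have hi2 : L.lev e.1.1 + (L.lev e.1.2 - 1 - L.lev e.1.1) = i := by omega
    rw [hi2, hi, ← even_level L c hc i (L.x e.1.2)]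
    have s1 : Sl L i e := ⟨by omega, by omega⟩
    unfold Lc
    rw [← Finset.sum_add_distrib]
    apply Finset.sum_congr rfl
    intro e' _
    have hY := Y_top L e
    rw [hi] at hY
    by_cases h1 : Sl L i e'
    · have hm := m_lt' L i e e' s1 h1
      rw [hY] at hm
      have hiff : (Y L e' (i + 1) = L.x e.1.2 ∧ Y L e' i < Y L e i) ↔
          (e'.1.2 = e.1.2 ∧ L.dn e' < L.dn e) := by
        constructor
        · rintro ⟨h2, h3⟩
          have h4 : L.lev e'.1.2 = i + 1 := by
            by_contra h5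
            have h6 := h1.2
            exact Y_vert L e' e.1.2 (i + 1) hi (by have := h1.1; omega) (by omega) h2
          have h5 := Y_top L e'
          rw [h4, h2] at h5
          refine ⟨L.x_inj _ _ (by omega) h5.symm, ?_⟩
          unfold LevDraw.dn
          rw [h4, hi]
          exact h3
        · rintro ⟨h2, h3⟩
          have h5 := Y_top L e'
          unfold LevDraw.dn at h3
          rw [h2, hi] at h5 h3
          refine ⟨h5, ?_⟩
          unfold Y
          rw [h2]
          exact h3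
      by_cases h2 : Y L e' (i + 1) < L.x e.1.2
      · rw [if_pos ⟨h1, hm.mpr (Or.inl h2)⟩, if_pos ⟨h1, h2⟩, if_neg, add_zero]
        intro h3
        have := (hiff.mpr h3).1
        linarith
      · by_cases h3 : e'.1.2 = e.1.2 ∧ L.dn e' < L.dn e
        · rw [if_pos ⟨h1, hm.mpr (Or.inr (hiff.mpr h3))⟩, if_neg (fun h => h2 h.2), if_pos h3,
            zero_add]
        · rw [if_neg, if_neg (fun h => h2 h.2), if_neg h3, zero_add]
          rintro ⟨_, h4⟩
          rcases hm.mp h4 with h5 | h5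
          · exact h2 h5
          · exact h3 (hiff.mp h5)
    · rw [if_neg (fun h => h1 h.1), if_neg (fun h => h1 h.1), if_neg, add_zero]
      rintro ⟨h2, _⟩
      apply h1
      have := lt_e L e'
      rw [h2, hi] at this
      refine ⟨by omega, ?_⟩
      rw [h2, hi]
      omega

end

end Pool.Agent.Helper42.Stk
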